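import Pool.Agent.Lib.MP_240e45_ag.Final

/-! The rational free Bertini statement fails in every number `g ≥ 2` of variables. -/

namespace Pool.Agent.Results.MP_240e45_ag.RationalBertini

open Pool.Agent.MP_240e45_ag

/-- For every `g ≥ 2` there is a noncommutative rational function in `g` variables that does not
decompose and does not have generically irreducible level sets; in fact its level set
`L_{n,c}` is nonempty and not irreducible for all `n ≥ 3` and all `c ≠ 0` with `c ^ 3 ≠ 4`. -/
theorem result (g : ℕ) (hg : 2 ≤ g) :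
    ∃ r : NCRat g, ¬ r.Decomposes ∧ ¬ r.GenericallyIrreducible ∧
      ∀ n : ℕ, 3 ≤ n → ∀ c : ℂ, c ≠ 0 → c ^ 3 ≠ 4 →
        (r.levelSet n c).Nonempty ∧ ¬ NCRat.ZIrreducible (r.levelSet n c) := by
  have hij : (⟨0, by omega⟩ : Fin g) ≠ ⟨1, by omega⟩ := by simp
  refine ⟨r0fun hij, not_decomposes hij, not_genericallyIrreducible hij, ?_⟩
  intro n hn c hc hc4
  obtain ⟨m, rfl⟩ := Nat.exists_eq_add_of_le hn
  obtain ⟨h1, h2⟩ := not_irreducible hij m hc hc4
  exact ⟨h1, fun h => h2 h.2⟩

end Pool.Agent.Results.MP_240e45_ag.RationalBertini
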